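import Pool.Agent.T9h44.N1.Fin2
import Pool.Agent.T9h36.N1.St
import Pool.Agent.T9h46.N1.Up
import Pool.Agent.T9h58.N1.N1
import Pool.Agent.T9h40.N1.N2
import Pool.Agent.T9h47.N1.N4
import Pool.Agent.T9h64.N1.N5

/-!
# Project NK, slope 1: assembly
-/

set_option autoImplicit false

open Set
open scoped RealInnerProductSpace

namespace Pool.Agent.T9h44.N1

open Pool.Agent.T9h98.DC Pool.Agent.T9h98.NK Pool.Agent.T9h44.NK Pool.Agent.T9h46.NK
  Pool.Agent.T9h36.N1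

theorem gEdge : S_EDGE := Pool.Agent.T9h41.NK.edge fFaces fTwo
theorem gG1 : S_G1 := Pool.Agent.T9h10.NK.g1
theorem gG2 : S_G2 := Pool.Agent.T9h40.NK.g2
theorem gG3 : S_G3 := Pool.Agent.T9h98.NK.g3
theorem gCenC : S_CENC := Pool.Agent.T9h26.NK.cenC fTR gG3
theorem gLocc : S_LOCC := Pool.Agent.T9h18.NK.locc fNb gCenC gG3
theorem gMC : S_MC := Pool.Agent.T9h22.NK.mc gEdge
theorem gC2 : S_C2 := Pool.Agent.T9h91.NK.c2 fFaces fCone gEdge gMC
theorem gN1 : S_N1 := Pool.Agent.T9h58.N1.n1 fSH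
theorem gN2 : S_N2 := Pool.Agent.T9h40.N1.n2 fFaces gG1 gG2
theorem gN4 : S_N4 := Pool.Agent.T9h47.N1.n4 fFaces fVF fInv fIota fTR gLocc gC2 gN2
theorem gN5 : S_N5 := Pool.Agent.T9h64.N1.n5 fFaces fVF fSH
theorem gUp : S_UP := Pool.Agent.T9h46.N1.up fFaces fVF fInv fIota fTR fMono fStep

theorem gST (h6 : S_N6) : S_ST := Pool.Agent.T9h36.N1.st fFaces fVF fInv fIota fNb fTR fStep fConn
  gLocc gN1 gN4 gN5 h6

end Pool.Agent.T9h44.N1
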