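import Pool.Agent.T9h36.N1.Spec
import Pool.Agent.T9h44.NK.All4

/-!
# Project NK, slope 1: the final induction

`MNT k (k + 17)` and `MK k (k + 20)` for `k ≥ 3`, so `d < k + 21`.
-/

set_option autoImplicit false

open Set
open scoped RealInnerProductSpace

namespace Pool.Agent.T9h44.N1

open Pool.Agent.T9h98.DC Pool.Agent.T9h98.NK Pool.Agent.T9h44.NK Pool.Agent.T9h46.NK
  Pool.Agent.T9h36.N1

theorem few_mono {d : ℕ} {k l : ℕ} (h : k ≤ l) {H : Subgroup (E d ≃ₗᵢ[ℝ] E d)} {P : Set (E d)}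
    (hk : Few k H P) : Few l H P := by
  intro Φ
  obtain ⟨a, b, hab, g, hg, hl⟩ := hk fun i => Φ (Fin.castLE (by omega) i)
  exact ⟨_, _, fun hc => hab (Fin.castLE_injective _ hc), g, hg, hl⟩

theorem mk_mono {k l N M : ℕ} (h : k ≤ l) (hN : N ≤ M) (hl : MK l N) : MK k M :=
  fun n hn P H hP hH hF => hl n (hN.trans hn) P H hP hH (few_mono h hF)

theorem mnt_of_mk {k N M : ℕ} (hN : N ≤ M) (h : MK k N) : MNT k M :=
  fun n hn P H hP hH hF _ => h n (hN.trans hn) P H hP hH hF

/-- `MK 3 17` -/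
theorem mk3 : MK 3 17 := by
  have := Pool.Agent.T9h46.NK.mk4 fFaces fVF fInv fIota fTR fMono fLL7 fLLT fStep 2
  simpa using this

theorem llg4 : Pool.Agent.T9h36.N1.LLG (3 + 1) 10 := fLLT

theorem mnt (hST : S_ST) (hUP : S_UP) : ∀ j : ℕ, MNT (j + 3) (j + 20) := by
  intro j
  induction j using Nat.strong_induction_on with
  | _ j ih =>
    cases j with
    | zero => exact mnt_of_mk (by norm_num) mk3
    | succ j =>
      have h := hST (j + 3) (j + 20) 3 10 17 (by omega) (by omega) (by omega) (by norm_num) llg4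
        mk3 (fun k' hk' hk'' => by
          rcases Nat.lt_or_ge k' 4 with h4 | h4
          · exact mk_mono (by omega) (by omega) mk3
          · obtain ⟨i, rfl⟩ : ∃ i, k' = i + 3 := ⟨k' - 3, by omega⟩
            exact mk_mono le_rfl (by omega)
              (hUP (i + 3) (i + 20) 3 10 (by omega) llg4 (by omega) (ih i (by omega))))
        (ih j (by omega))
      have e1 : j + 3 + 1 = j + 1 + 3 := by ring
      have e2 : j + 20 + 1 = j + 1 + 20 := by ring
      rw [e1, e2] at h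
      exact h

/-- the bound with slope 1 -/
theorem bound1 (hST : S_ST) (hUP : S_UP) (k d : ℕ) (hk : 2 ≤ k) (P : Set (E d))
    (hP : IsKOrbit k P) : d < k + 21 := by
  by_contra hcon
  push Not at hcon
  obtain ⟨n, rfl⟩ : ∃ n, d = n + 1 := ⟨d - 1, by omega⟩
  rcases Nat.lt_or_ge k 3 with h3 | h3
  · exact no_of_mk fTrans fOne fFts fFto fFtc 3 17 mk3 n (by omega) k hk (by omega) P hP
  · obtain ⟨j, rfl⟩ : ∃ j, k = j + 3 := ⟨k - 3, by omega⟩
    exact no_of_mk fTrans fOne fFts fFto fFtc (j + 3) (j + 20 + 3)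
      (hUP (j + 3) (j + 20) 3 10 (by omega) llg4 (by omega) (mnt hST hUP j)) n (by omega) (j + 3) hk
      le_rfl P hP

end Pool.Agent.T9h44.N1
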