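import Pool.Agent.T9h44.N1.Fin
import Pool.Agent.T9h64.NK.RecX

/-!
# Project NK, slope 1: the final induction with a general base
-/

set_option autoImplicit false

open Set
open scoped RealInnerProductSpace

namespace Pool.Agent.T9h44.N1

open Pool.Agent.T9h98.DC Pool.Agent.T9h98.NK Pool.Agent.T9h44.NK Pool.Agent.T9h46.NK
  Pool.Agent.T9h36.N1

theorem mntG (hST : S_ST) (hUP : S_UP) {N₁ M : ℕ} (h9 : 9 ≤ N₁) (h3 : MK 3 N₁) (hM : 15 ≤ M)
    (hM' : N₁ + 3 ≤ M) : ∀ j : ℕ, MNT (j + 3) (j + M) := by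
  intro j
  induction j using Nat.strong_induction_on with
  | _ j ih =>
    cases j with
    | zero => exact mnt_of_mk (by omega) h3
    | succ j =>
      have h := hST (j + 3) (j + M) 3 10 N₁ (by omega) (by omega) (by omega) h9 llg4
        h3 (fun k' hk' hk'' => by
          rcases Nat.lt_or_ge k' 4 with h4 | h4
          · exact mk_mono (by omega) (by omega) h3
          · obtain ⟨i, rfl⟩ : ∃ i, k' = i + 3 := ⟨k' - 3, by omega⟩
            exact mk_mono le_rfl (by omega)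
              (hUP (i + 3) (i + M) 3 10 (by omega) llg4 (by omega) (ih i (by omega))))
        (ih j (by omega))
      have e1 : j + 3 + 1 = j + 1 + 3 := by ring
      have e2 : j + M + 1 = j + 1 + M := by ring
      rw [e1, e2] at h
      exact h

/-- the bound with slope 1 from a base for three orbits -/
theorem boundG (hST : S_ST) (hUP : S_UP) {N₁ M : ℕ} (h9 : 9 ≤ N₁) (h3 : MK 3 N₁) (hM : 15 ≤ M)
    (hM' : N₁ + 3 ≤ M) (k d : ℕ) (hk : 2 ≤ k) (P : Set (E d))
    (hP : IsKOrbit k P) : d < k + M + 1 := by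
  by_contra hcon
  push Not at hcon
  obtain ⟨n, rfl⟩ : ∃ n, d = n + 1 := ⟨d - 1, by omega⟩
  rcases Nat.lt_or_ge k 3 with h3' | h3'
  · exact no_of_mk fTrans fOne fFts fFto fFtc 3 N₁ h3 n (by omega) k hk (by omega) P hP
  · obtain ⟨j, rfl⟩ : ∃ j, k = j + 3 := ⟨k - 3, by omega⟩
    exact no_of_mk fTrans fOne fFts fFto fFtc (j + 3) (j + M + 3)
      (hUP (j + 3) (j + M) 3 10 (by omega) llg4 (by omega) (mntG hST hUP h9 h3 hM hM' j)) n
      (by omega) (j + 3) hk le_rfl P hP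

/-- the base for three orbits from the known values `N_2 ≤ 11`, `N_3 ≤ 12` -/
theorem mk3' (h2 : ∀ d, 11 ≤ d → ∀ P : Set (E d), ¬ IsKOrbit 2 P)
    (h3 : ∀ d, 12 ≤ d → ∀ P : Set (E d), ¬ IsKOrbit 3 P) : MK 3 11 := by
  have h := Pool.Agent.T9h64.NK.md_base fFaces fVF fInv fIota fTR fExt fMono fLL7 fStep fTrans 3 12
    (by norm_num) (by norm_num) (fun j hj hj' d hd P => by
      obtain rfl | rfl : j = 2 ∨ j = 3 := by omega
      · exact h2 d (by omega) P
      · exact h3 d (by omega) P)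
  exact fun n hn P H hP hH hF => h n (by omega) P H hP hH hF

/-- the bound `d < k + 16` from the known values `N_2 ≤ 11`, `N_3 ≤ 12` -/
theorem bound16 (hST : S_ST) (hUP : S_UP)
    (h2 : ∀ d, 11 ≤ d → ∀ P : Set (E d), ¬ IsKOrbit 2 P)
    (h3 : ∀ d, 12 ≤ d → ∀ P : Set (E d), ¬ IsKOrbit 3 P) (k d : ℕ) (hk : 2 ≤ k) (P : Set (E d))
    (hP : IsKOrbit k P) : d < k + 16 := by
  have := boundG hST hUP (N₁ := 11) (M := 15) (by norm_num) (mk3' h2 h3) (by norm_num) (by norm_num)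
    k d hk P hP
  omega

end Pool.Agent.T9h44.N1
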