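import Pool.Agent.T9h44.N1.All
import Pool.Agent.T9h56.N1.N6

/-!
# Project NK, slope 1: the theorems
-/

set_option autoImplicit false

open Set
open scoped RealInnerProductSpace

namespace Pool.Agent.T9h44.N1

open Pool.Agent.T9h98.DC Pool.Agent.T9h98.NK Pool.Agent.T9h44.NK Pool.Agent.T9h46.NK
  Pool.Agent.T9h36.N1

theorem gPlane : S_PLANE := Pool.Agent.T9h41.NK.plane fFaces fTwo

theorem gN6 : S_N6 := Pool.Agent.T9h56.N1.n6 fFaces fVF fNb fCone gEdge gPlane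

/-- `N_k ≤ k + 21` -/
theorem top1 (k d : ℕ) (hk : 2 ≤ k) (P : Set (E d)) (hP : IsKOrbit k P) : d < k + 21 :=
  bound1 (gST gN6) gUp k d hk P hP

/-- `N_k ≤ k + 16` from the known values -/
theorem top16 (h2 : ∀ d, 11 ≤ d → ∀ P : Set (E d), ¬ IsKOrbit 2 P)
    (h3 : ∀ d, 12 ≤ d → ∀ P : Set (E d), ¬ IsKOrbit 3 P) (k d : ℕ) (hk : 2 ≤ k) (P : Set (E d))
    (hP : IsKOrbit k P) : d < k + 16 :=
  bound16 (gST gN6) gUp h2 h3 k d hk P hP

end Pool.Agent.T9h44.N1
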