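import Pool.Agent.T9h44.N1.Top
import Pool.Agent.T9h36.N1.St2

/-!
# Project NK, slope 1: the theorem with helper36's numbers
-/

set_option autoImplicit false

open Set
open scoped RealInnerProductSpace

namespace Pool.Agent.T9h44.N1

open Pool.Agent.T9h98.DC Pool.Agent.T9h98.NK Pool.Agent.T9h44.NK Pool.Agent.T9h46.NK
  Pool.Agent.T9h36.N1

theorem gMK : MK 4 17 ∧ MK 5 18 ∧ ∀ k, MK k (k + 14) :=
  mk15 fFaces fVF fInv fIota fNb fTR fMono fStep fConn gLocc gN1 gN4 gN5 gN6 gUp llg4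
    (Pool.Agent.T9h46.NK.m1 fFaces fMono fLL7)

/-- `N_k ≤ k + 15` -/
theorem top15 (k d : ℕ) (hk : 2 ≤ k) (P : Set (E d)) (hP : IsKOrbit k P) : d < k + 15 := by
  have := fin15 fTrans fOne fFts fFto fFtc k (k + 14) d hk (gMK.2.2 k) P hP
  omega

/-- `N_5 ≤ 19` -/
theorem top5 (d : ℕ) (P : Set (E d)) (hP : IsKOrbit 5 P) : d < 19 := by
  have := fin15 fTrans fOne fFts fFto fFtc 5 18 d (by norm_num) gMK.2.1 P hP
  omega

end Pool.Agent.T9h44.N1
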