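import Pool.Agent.T9h44.N1.Top2

/-!
# Project NK, slope 1: the numbers with the known values of `N_2` and `N_3`
-/

set_option autoImplicit false

open Set
open scoped RealInnerProductSpace

namespace Pool.Agent.T9h44.N1

open Pool.Agent.T9h98.DC Pool.Agent.T9h98.NK Pool.Agent.T9h44.NK Pool.Agent.T9h46.NK
  Pool.Agent.T9h36.N1

theorem mk2' (h2 : ∀ d, 11 ≤ d → ∀ P : Set (E d), ¬ IsKOrbit 2 P) : MK 2 10 := by
  have h := Pool.Agent.T9h64.NK.md_base fFaces fVF fInv fIota fTR fExt fMono fLL7 fStep fTrans 2 11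
    (by norm_num) (by norm_num) (fun j hj hj' d hd P => by
      obtain rfl : j = 2 := by omega
      exact h2 d (by omega) P)
  exact fun n hn P H hP hH hF => h n (by omega) P H hP hH hF

/-- the numbers if `N_2 ≤ 11`, `N_3 ≤ 12` -/
theorem numbers' (k2 : MK 2 10) (k3 : MK 3 11) :
    MK 4 15 ∧ MK 5 16 ∧ ∀ k, MK k (k + 12) := by
  have st := st2 fFaces fVF fInv fIota fNb fTR fMono fStep fConn gLocc gN1 gN4 gN5 gN6
  have up : ∀ k N, 9 ≤ N → MNT k N → MK k (N + 3) := fun k N h9 h =>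
    gUp k N 3 10 h9 llg4 (by omega) h
  have mn : ∀ {k N N' : ℕ}, N ≤ N' → MNT k N → MNT k N' := fun h h' n hn => h' n (h.trans hn)
  have m3 : MNT 3 11 := mnt_of_mk le_rfl k3
  have m4 : MNT 4 12 := st 2 1 11 3 10 (by norm_num) (by norm_num) (by norm_num) llg4
    (mk_mono le_rfl (by norm_num) k2) m3 (Or.inl rfl)
  have k4 : MK 4 15 := up 4 12 (by norm_num) m4
  have m5 : MNT 5 13 := st 3 1 12 3 10 (by norm_num) (by norm_num) (by norm_num) llg4
    (mk_mono le_rfl (by norm_num) k3) m4 (Or.inl rfl)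
  have k5 : MK 5 16 := up 5 13 (by norm_num) m5
  have alt2 : Alt 2 3 14 := Or.inr ⟨10, by norm_num, by norm_num, by norm_num, k2⟩
  have alt3 : ∀ N, 14 ≤ N → Alt 3 3 N := fun N hN => Or.inr ⟨11, by norm_num, by omega, by omega, k3⟩
  have m6 : MNT 6 15 := st 3 2 14 3 10 (by norm_num) (by norm_num) (by norm_num) llg4
    (mk_mono le_rfl (by norm_num) k3) (mn (by norm_num) m5) alt2
  have key : ∀ j, MNT (j + 6) (j + 15) := by
    intro j
    induction j using Nat.strong_induction_on with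
    | _ j ih =>
      rcases Nat.eq_zero_or_pos j with rfl | hj
      · exact m6
      · obtain ⟨i, rfl⟩ : ∃ i, j = i + 1 := ⟨j - 1, by omega⟩
        have hka : MK (i + 3) (i + 15) := by
          rcases i with _ | _ | _ | i
          · exact mk_mono le_rfl (by norm_num) k3
          · exact mk_mono le_rfl (by norm_num) k4
          · exact mk_mono le_rfl (by norm_num) k5
          · exact mk_mono le_rfl (by omega) (up (i + 6) (i + 15) (by omega) (ih i (by omega)))
        exact st (i + 3) 3 (i + 15) 3 10 (by omega) (by omega) (by omega) llg4 hka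
          (ih i (by omega)) (alt3 (i + 15) (by omega))
  refine ⟨k4, k5, fun k => ?_⟩
  rcases k with _ | _ | _ | _ | _ | _ | k
  · exact mk_mono (by norm_num) (by norm_num) k2
  · exact mk_mono (by norm_num) (by norm_num) k2
  · exact mk_mono le_rfl (by norm_num) k2
  · exact mk_mono le_rfl (by norm_num) k3
  · exact mk_mono le_rfl (by norm_num) k4
  · exact mk_mono le_rfl (by norm_num) k5
  · exact mk_mono le_rfl (by omega) (up (k + 6) (k + 15) (by omega) (key k))

/-- `N_4 ≤ 16` and `N_k ≤ k + 13` if `N_2 ≤ 11`, `N_3 ≤ 12` -/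
theorem top13 (h2 : ∀ d, 11 ≤ d → ∀ P : Set (E d), ¬ IsKOrbit 2 P)
    (h3 : ∀ d, 12 ≤ d → ∀ P : Set (E d), ¬ IsKOrbit 3 P) :
    (∀ (d : ℕ) (P : Set (E d)), IsKOrbit 4 P → d < 16) ∧
    (∀ (d : ℕ) (P : Set (E d)), IsKOrbit 5 P → d < 17) ∧
    ∀ k : ℕ, 2 ≤ k → ∀ (d : ℕ) (P : Set (E d)), IsKOrbit k P → d < k + 13 := by
  obtain ⟨h4, h5, hk⟩ := numbers' (mk2' h2) (mk3' h2 h3)
  refine ⟨fun d P hP => ?_, fun d P hP => ?_, fun k hk2 d P hP => ?_⟩
  · have := fin15 fTrans fOne fFts fFto fFtc 4 15 d (by norm_num) h4 P hP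
    omega
  · have := fin15 fTrans fOne fFts fFto fFtc 5 16 d (by norm_num) h5 P hP
    omega
  · have := fin15 fTrans fOne fFts fFto fFtc k (k + 12) d hk2 (hk k) P hP
    omega

end Pool.Agent.T9h44.N1
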